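import Pool.Agent.Helper95.HS.GoalsA

/-! # HS GPT: the comparison with the auxiliary Monge-Ampère equation -/

open Complex Metric Set Filter Topology MeasureTheory
open scoped ContDiff ComplexConjugate ComplexOrder Manifold Matrix

namespace Pool.Agent.Helper97.HS

open Pool.Agent.Helper95.Lin Pool.Agent.Helper16.Abund Pool.Agent.Helper10.SP
  Pool.Agent.Helper57.HS Pool.Agent.Helper95.HS

universe u v

section lm

variable {n : ℕ}

theorem cd_cong {f g : Cn n → ℂ} {x : Cn n} (l : Fin n) (h : f =ᶠ[𝓝 x] g) :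
    cd l f x = cd l g x := by
  unfold cd
  rw [h.fderiv_eq]

theorem cdb_cong {f g : Cn n → ℂ} {x : Cn n} (l : Fin n) (h : f =ᶠ[𝓝 x] g) :
    cdb l f x = cdb l g x := by
  unfold cdb
  rw [h.fderiv_eq]

theorem LM_cong {Φ Ψ : Cn n → ℝ} {x : Cn n} (h : Φ =ᶠ[𝓝 x] Ψ) : LM Φ x = LM Ψ x := by
  ext j k
  unfold LM
  simp only [Matrix.of_apply]
  refine cd_cong j ?_
  filter_upwards [h.eventuallyEq_nhds] with y hy
  refine cdb_cong k ?_
  filter_upwards [hy] with z hz
  rw [hz]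

theorem LM_ad (hW : S_WIRT) {W : Set (Cn n)} (hWo : IsOpen W) {Φ Ψ : Cn n → ℝ}
    (h1 : ContDiffOn ℝ ∞ Φ W) (h2 : ContDiffOn ℝ ∞ Ψ W) {x : Cn n} (hx : x ∈ W) :
    LM (fun y => Φ y + Ψ y) x = LM Φ x + LM Ψ x := by
  have c1 : ContDiffOn ℝ ∞ (fun y => (Φ y : ℂ)) W :=
    Complex.ofRealCLM.contDiff.comp_contDiffOn h1
  have c2 : ContDiffOn ℝ ∞ (fun y => (Ψ y : ℂ)) W :=
    Complex.ofRealCLM.contDiff.comp_contDiffOn h2
  obtain ⟨s1, -, -, -, -, -⟩ := hW W hWo _ _ c1 c2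
  obtain ⟨s2, -, -, -, -, -⟩ := hW W hWo _ _ c2 c1
  obtain ⟨-, a1, -, -, -, -⟩ := hW W hWo _ _ c1 c2
  ext j k
  have a2 := (hW W hWo _ _ (s1 k).2 (s2 k).2).2.1 j x hx
  simp only [LM, Matrix.of_apply, Matrix.add_apply]
  rw [← a2.1]
  refine cd_cong j ?_
  filter_upwards [hWo.mem_nhds hx] with y hy
  rw [← (a1 k y hy).2]
  refine cdb_cong k ?_
  filter_upwards with z
  push_cast
  rfl

theorem LM_addc (φ : Cn n → ℝ) (c : ℝ) (x : Cn n) : LM (fun y => φ y + c) x = LM φ x := by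
  ext j k
  have h : ∀ y, cdb k (fun y => ((φ y + c : ℝ) : ℂ)) y = cdb k (fun y => ((φ y : ℝ) : ℂ)) y := by
    intro y
    unfold cdb
    have : (fun y => ((φ y + c : ℝ) : ℂ)) = fun y => ((φ y : ℝ) : ℂ) + (c : ℂ) := by
      funext y
      push_cast
      rfl
    rw [this, fderiv_add_const]
  simp only [LM, Matrix.of_apply]
  refine cd_cong j ?_
  filter_upwards with y
  exact h y

theorem LM_sb (hW : S_WIRT) {W : Set (Cn n)} (hWo : IsOpen W) {Φ Ψ : Cn n → ℝ}
    (h1 : ContDiffOn ℝ ∞ Φ W) (h2 : ContDiffOn ℝ ∞ Ψ W) {x : Cn n} (hx : x ∈ W) :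
    LM (fun y => Φ y - Ψ y) x = LM Φ x - LM Ψ x := by
  have h := LM_ad hW hWo (h1.sub h2) h2 hx
  have e : (fun y => Φ y - Ψ y + Ψ y) = Φ := by
    funext y
    ring
  rw [e] at h
  rw [h]
  abel

end lm

section int

variable {n : ℕ}

theorem kc {T : Set (Cn n)} (hT : IsOpen T) {κ g : Cn n → ℝ} (hκ : TestF T κ)
    (hg : ContinuousOn g T) : Continuous (fun x => κ x * g x) ∧
      HasCompactSupport (fun x => κ x * g x) ∧ ∀ x ∉ T, κ x * g x = 0 := by
  have h0 : ∀ x ∉ T, κ x = 0 := fun x hx => image_eq_zero_of_notMem_tsupport fun h => hx (hκ.2.2 h)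
  refine ⟨?_, hκ.2.1.mul_right, fun x hx => by rw [h0 x hx, zero_mul]⟩
  rw [continuous_iff_continuousAt]
  intro x
  by_cases hx : x ∈ T
  · exact hκ.1.continuous.continuousAt.mul (hg.continuousAt (hT.mem_nhds hx))
  · have h1 : x ∉ tsupport κ := fun h => hx (hκ.2.2 h)
    have h2 : κ =ᶠ[𝓝 x] 0 := notMem_tsupport_iff_eventuallyEq.1 h1
    have h3 : (fun x => κ x * g x) =ᶠ[𝓝 x] fun _ => 0 := by
      filter_upwards [h2] with y hy
      rw [hy, Pi.zero_apply, zero_mul]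
    exact continuousAt_const.congr h3.symm

theorem kint {T : Set (Cn n)} (hT : IsOpen T) {κ g : Cn n → ℝ} (hκ : TestF T κ)
    (hg : ContinuousOn g T) : IntegrableOn (fun x => κ x * g x) T :=
  ((kc hT hκ hg).1.integrable_of_hasCompactSupport (kc hT hκ hg).2.1).integrableOn

theorem exists_kpos {T : Set (Cn n)} {G : Type u} [Group G] {R : G → Cn n → Cn n → Prop}
    (hE : Et T R) {κ : Cn n → ℝ} (pu : IsPUE T R κ) : ∃ y ∈ T, 0 < κ y := by
  obtain ⟨x, hx⟩ := hE.nonempty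
  by_contra hcon
  push Not at hcon
  have h0 : AS R x (fun _ y => κ y) = 0 := by
    unfold AS
    refine finsum_eq_zero_of_forall_eq_zero fun p => ?_
    by_cases h : R p.1 x p.2
    · have hk : κ p.2 = 0 := le_antisymm (hcon p.2 (hE.mem _ _ _ h).2) (pu.nonneg _)
      simp [hk]
    · simp [h]
  rw [pu.sum x hx] at h0
  exact one_ne_zero h0

theorem kpos {T : Set (Cn n)} {G : Type u} [Group G] {R : G → Cn n → Cn n → Prop}
    (hE : Et T R) {κ g : Cn n → ℝ} (pu : IsPUE T R κ) (hg : ContinuousOn g T)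
    (hp : ∀ x ∈ T, 0 < g x) : 0 < ∫ x in T, κ x * g x := by
  obtain ⟨c1, c2, c3⟩ := kc hE.isOpen pu.test hg
  rw [setIntegral_eq_integral_of_forall_compl_eq_zero c3]
  obtain ⟨y, hy, hky⟩ := exists_kpos hE pu
  refine c1.integral_pos_of_hasCompactSupport_nonneg_nonzero c2 (fun x => ?_)
    (x := y) (mul_pos hky (hp y hy)).ne'
  by_cases hx : x ∈ T
  · exact mul_nonneg (pu.nonneg x) (hp x hx).le
  · exact (c3 x hx).symm.le

end int

/-- The numerical part. -/
theorem num (n : ℕ) (hn : 0 < n) (A h b e c : ℝ) (hA : 0 < A) (hh : 1 + 2 * A ≤ h)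
    (hb : b = (n : ℝ) / ((n : ℝ) + 1))
    (he : e = (2 * A * (((n : ℝ) + 1) / n) ^ n) ^ ((1 : ℝ) / ((n : ℝ) + 1)))
    (hc : c = e * b * h ^ (b - 1)) :
    0 < c ∧ c ≤ 1 ∧ ∀ r W : ℝ, 0 ≤ r → c * r ^ ((1 : ℝ) / n) ≤ 1 → W / (2 * A) ≤ r →
      W ≤ e * h ^ b := by
  have hN : (0 : ℝ) < n := by exact_mod_cast hn
  have hb0 : 0 < b := by rw [hb]; positivity
  have hb1 : b < 1 := by rw [hb, div_lt_one (by positivity)]; linarith
  have hh0 : 0 < h := by linarith
  have hbase : 0 < 2 * A * (((n : ℝ) + 1) / n) ^ n := by positivity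
  have he0 : 0 < e := by rw [he]; exact Real.rpow_pos_of_pos hbase _
  have he1 : e ^ (n + 1) = 2 * A * (((n : ℝ) + 1) / n) ^ n := by
    have h1 : (1 : ℝ) / ((n : ℝ) + 1) = (((n + 1 : ℕ) : ℝ))⁻¹ := by push_cast; rw [one_div]
    rw [he, h1, Real.rpow_inv_natCast_pow hbase.le (Nat.succ_ne_zero n)]
  have hq : ((n : ℝ) + 1) / n * b = 1 := by rw [hb]; field_simp
  have key : (e * b) ^ n * e = 2 * A := by
    have h1 : (e * b) ^ n * e = e ^ (n + 1) * b ^ n := by rw [mul_pow]; ring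
    rw [h1, he1, mul_assoc, ← mul_pow, hq, one_pow, mul_one]
  have heb : 0 < e * b := mul_pos he0 hb0
  have hle : e * b ≤ h ^ (1 - b) := by
    rw [← pow_le_pow_iff_left₀ heb.le (Real.rpow_nonneg hh0.le _) (Nat.succ_ne_zero n)]
    have h1 : (h ^ (1 - b)) ^ (n + 1) = h := by
      rw [← Real.rpow_natCast, ← Real.rpow_mul hh0.le]
      have h2 : (1 - b) * ((n + 1 : ℕ) : ℝ) = 1 := by
        push_cast
        rw [hb]
        field_simp
        ring
      rw [h2, Real.rpow_one]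
    have h3 : (e * b) ^ (n + 1) = 2 * A * b := by
      rw [pow_succ, ← mul_assoc, key]
    rw [h1, h3]
    nlinarith
  have hc0 : 0 < c := by rw [hc]; exact mul_pos heb (Real.rpow_pos_of_pos hh0 _)
  refine ⟨hc0, ?_, ?_⟩
  · rw [hc]
    calc e * b * h ^ (b - 1) ≤ h ^ (1 - b) * h ^ (b - 1) :=
          mul_le_mul_of_nonneg_right hle (Real.rpow_nonneg hh0.le _)
      _ = 1 := by
          rw [← Real.rpow_add hh0]
          have : 1 - b + (b - 1) = 0 := by ring
          rw [this, Real.rpow_zero]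
  · intro r W hr h1 h2
    have h3 : (c * r ^ ((1 : ℝ) / n)) ^ n ≤ 1 := by
      refine pow_le_one₀ ?_ h1
      exact mul_nonneg hc0.le (Real.rpow_nonneg hr _)
    have h4 : (r ^ ((1 : ℝ) / n)) ^ n = r := by
      rw [one_div, Real.rpow_inv_natCast_pow hr hn.ne']
    rw [mul_pow, h4] at h3
    have h5 : c ^ n * h ^ b = (e * b) ^ n := by
      rw [hc, mul_pow]
      have h6 : (h ^ (b - 1)) ^ n * h ^ b = 1 := by
        rw [← Real.rpow_natCast, ← Real.rpow_mul hh0.le, ← Real.rpow_add hh0]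
        have : (b - 1) * (n : ℝ) + b = 0 := by
          rw [hb]
          field_simp
          ring
        rw [this, Real.rpow_zero]
      rw [mul_assoc, h6, mul_one]
    have hhb : 0 < h ^ b := Real.rpow_pos_of_pos hh0 _
    have h7 : (e * b) ^ n * r ≤ h ^ b := by
      rw [← h5]
      calc c ^ n * h ^ b * r = (c ^ n * r) * h ^ b := by ring
        _ ≤ 1 * h ^ b := mul_le_mul_of_nonneg_right h3 hhb.le
        _ = h ^ b := one_mul _
    have h8 : W ≤ 2 * A * r := by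
      rw [div_le_iff₀ (by positivity)] at h2
      linarith
    have h9 : 0 < (e * b) ^ n := pow_pos heb n
    have h10 : (e * b) ^ n * W ≤ (e * b) ^ n * (e * h ^ b) := by
      calc (e * b) ^ n * W ≤ (e * b) ^ n * (2 * A * r) := mul_le_mul_of_nonneg_left h8 h9.le
        _ = 2 * A * ((e * b) ^ n * r) := by ring
        _ ≤ 2 * A * h ^ b := mul_le_mul_of_nonneg_left h7 (by positivity)
        _ = (e * b) ^ n * (e * h ^ b) := by rw [← key]; ring
    exact le_of_mul_le_mul_left h10 h9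

/-- The derivatives of `e * r ^ b`. -/
theorem der_rpow (e b : ℝ) {r : ℝ} (hr : 0 < r) :
    deriv (fun t : ℝ => e * t ^ b) r = e * b * r ^ (b - 1) ∧
      deriv (deriv fun t : ℝ => e * t ^ b) r = e * b * (b - 1) * r ^ (b - 2) := by
  have h1 : ∀ t : ℝ, 0 < t → HasDerivAt (fun t : ℝ => e * t ^ b) (e * (b * t ^ (b - 1))) t :=
    fun t ht => (Real.hasDerivAt_rpow_const (Or.inl ht.ne')).const_mul e
  refine ⟨by rw [(h1 r hr).deriv]; ring, ?_⟩
  have h2 : deriv (fun t : ℝ => e * t ^ b) =ᶠ[𝓝 r] fun t => e * (b * t ^ (b - 1)) := by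
    filter_upwards [Ioi_mem_nhds hr] with t ht
    exact (h1 t ht).deriv
  rw [h2.deriv_eq]
  have h3 : HasDerivAt (fun t : ℝ => e * (b * t ^ (b - 1))) (e * (b * ((b - 1) * r ^ (b - 1 - 1))))
      r := ((Real.hasDerivAt_rpow_const (Or.inl hr.ne')).const_mul b).const_mul e
  rw [h3.deriv]
  have h4 : b - 1 - 1 = b - 2 := by ring
  rw [h4]
  ring

/-- The estimate at a maximum point. -/
theorem core (htrc : S_TRC) (hchn : S_CHN) (hwirt : S_WIRT) {n : ℕ} (hn : 0 < n)
    {T : Set (Cn n)} (hT : IsOpen T) {χ : Cn n → Matrix (Fin n) (Fin n) ℂ} {φ v ψ : Cn n → ℝ}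
    (sφ : ContDiffOn ℝ ∞ φ T) (sv : ContDiffOn ℝ ∞ v T) (sψ : ContDiffOn ℝ ∞ ψ T)
    (s A b e : ℝ) (hA : 0 < A) (hb : b = (n : ℝ) / ((n : ℝ) + 1))
    (he : e = (2 * A * (((n : ℝ) + 1) / n) ^ n) ^ ((1 : ℝ) / ((n : ℝ) + 1)))
    (hh : ∀ x ∈ T, 1 + 2 * A ≤ 2 + 2 * A + v x - ψ x) {x : Cn n} (hx : x ∈ T)
    (hPSD : (- LM (fun y => v y - φ y - s - e * (2 + 2 * A + v y - ψ y) ^ b) x).PosSemidef)
    (pQ : (pert χ φ x).PosDef) (pv : (pert χ v x).PosDef) (pψ : (pert χ ψ x).PosDef)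
    (hdet : (v x - φ x - s) / (2 * A) * (pert χ φ x).det.re ≤ (pert χ ψ x).det.re) :
    v x - φ x - s ≤ e * (2 + 2 * A + v x - ψ x) ^ b := by
  classical
  have hN : (0 : ℝ) < n := by exact_mod_cast hn
  set h : Cn n → ℝ := fun y => 2 + 2 * A + v y - ψ y with hdef
  have hb0 : 0 < b := by rw [hb]; positivity
  have hb1 : b < 1 := by rw [hb, div_lt_one (by positivity)]; linarith
  have he0 : 0 < e := by rw [he]; positivity
  have hpos : ∀ y ∈ T, 0 < h y := fun y hy => by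
    have h1 : 1 + 2 * A ≤ h y := hh y hy
    linarith
  have sh : ContDiffOn ℝ ∞ h T := (contDiffOn_const.add sv).sub sψ
  obtain ⟨c0, c1, c2⟩ := num n hn A (h x) b e (e * b * h x ^ (b - 1)) hA (hh x hx) hb he rfl
  set c : ℝ := e * b * h x ^ (b - 1) with hc
  -- the chain rule
  have hF : ContDiffOn ℝ ∞ (fun t : ℝ => e * t ^ b) (Ioi 0) := by
    refine contDiffOn_const.mul ?_
    exact contDiffOn_id.rpow_const_of_ne fun t (ht : 0 < t) => ht.ne'
  obtain ⟨sF, hch⟩ := hchn T hT h (fun t : ℝ => e * t ^ b) (Ioi 0) sh isOpen_Ioi hF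
    (fun y hy => hpos y hy)
  obtain ⟨-, hch⟩ := hch x hx
  obtain ⟨d1, d2⟩ := der_rpow e b (hpos x hx)
  -- the Levi matrices
  have sW : ContDiffOn ℝ ∞ (fun y => v y - φ y - s) T := (sv.sub sφ).sub contDiffOn_const
  have l1 : LM (fun y => v y - φ y - s - e * (2 + 2 * A + v y - ψ y) ^ b) x =
      LM (fun y => v y - φ y - s) x - LM (fun y => e * h y ^ b) x :=
    LM_sb hwirt hT sW sF hx
  have l2 : LM (fun y => v y - φ y - s) x = LM v x - LM φ x := by
    have h1 := LM_addc (fun y => v y - φ y) (-s) x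
    rw [LM_sb hwirt hT sv sφ hx] at h1
    exact h1
  have l3 : LM h x = LM v x - LM ψ x := by
    have h1 := LM_addc (fun y => v y - ψ y) (2 + 2 * A) x
    rw [LM_sb hwirt hT sv sψ hx] at h1
    rw [← h1]
    congr 1
    funext y
    simp only [hdef]
    ring
  set a : Fin n → ℂ := fun j => cd j (fun y => ((h y : ℝ) : ℂ)) x with ha
  set M : Matrix (Fin n) (Fin n) ℂ := Matrix.vecMulVec a (star a) with hM
  have hMp : M.PosSemidef := Matrix.posSemidef_vecMulVec_self_star a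
  set m : ℝ := - (e * b * (b - 1) * h x ^ (b - 2)) with hm
  have hm0 : 0 ≤ m := by
    have h1 : 0 < h x ^ (b - 2) := Real.rpow_pos_of_pos (hpos x hx) _
    have h2 : 0 < e * b := mul_pos he0 hb0
    have h3 : m = e * b * (1 - b) * h x ^ (b - 2) := by rw [hm]; ring
    rw [h3]
    have h4 : 0 < 1 - b := by linarith
    positivity
  have hY : pert χ φ x - (c : ℂ) • pert χ ψ x = ((1 - c : ℝ) : ℂ) • pert χ v x +
      (m : ℂ) • M + (- LM (fun y => v y - φ y - s - e * (2 + 2 * A + v y - ψ y) ^ b) x) := by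
    rw [l1, l2]
    ext j k
    have h1 := hch j k
    rw [d1, d2, l3] at h1
    simp only [Matrix.sub_apply, Matrix.add_apply, Matrix.smul_apply, Matrix.neg_apply, h1, pert,
      smul_eq_mul]
    have h2 : M j k = cd j (fun y => ((h y : ℝ) : ℂ)) x *
        conj (cd k (fun y => ((h y : ℝ) : ℂ)) x) := rfl
    rw [h2]
    have h3 : ((e * b * (b - 1) * h x ^ (b - 2) : ℝ) : ℂ) = - (m : ℂ) := by
      rw [hm]
      push_cast
      ring
    rw [h3, ← hc]
    push_cast
    ring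
  have hYp : (pert χ φ x - (c : ℂ) • pert χ ψ x).PosSemidef := by
    rw [hY]
    refine ((pv.posSemidef.smul ?_).add (hMp.smul ?_)).add hPSD
    · exact_mod_cast (sub_nonneg.2 c1)
    · exact_mod_cast hm0
  have hdQ : 0 < (pert χ φ x).det.re := (Complex.pos_iff.1 pQ.det_pos).1
  have hdP : 0 < (pert χ ψ x).det.re := (Complex.pos_iff.1 pψ.det_pos).1
  have hdQ0 : IsUnit (pert χ φ x).det := by
    rw [isUnit_iff_ne_zero]
    exact pQ.det_pos.ne'
  obtain ⟨-, t1, -, -, -⟩ := htrc (pert χ φ x) (pert χ φ x - (c : ℂ) • pert χ ψ x) pQ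
  obtain ⟨-, -, t2, -, -⟩ := htrc (pert χ φ x) (pert χ ψ x) pQ
  have t3 := (t1 hYp).1
  have t4 := t2 pψ
  have t5 : (Matrix.trace ((pert χ φ x)⁻¹ * (pert χ φ x - (c : ℂ) • pert χ ψ x))).re =
      n - c * (Matrix.trace ((pert χ φ x)⁻¹ * pert χ ψ x)).re := by
    rw [Matrix.mul_sub, Matrix.nonsing_inv_mul _ hdQ0, Matrix.trace_sub, Matrix.trace_one,
      Matrix.mul_smul, Matrix.trace_smul, Fintype.card_fin]
    simp
  rw [t5] at t3
  refine c2 ((pert χ ψ x).det.re / (pert χ φ x).det.re) _ (by positivity) ?_ ?_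
  · set q := ((pert χ ψ x).det.re / (pert χ φ x).det.re) ^ ((1 : ℝ) / n) with hq
    have h1 : (n : ℝ) * (c * q) ≤ n * 1 := by
      calc (n : ℝ) * (c * q) = c * (n * q) := by ring
        _ ≤ c * (Matrix.trace ((pert χ φ x)⁻¹ * pert χ ψ x)).re :=
            mul_le_mul_of_nonneg_left t4 c0.le
        _ ≤ n * 1 := by linarith
    exact le_of_mul_le_mul_left h1 hN
  · rw [le_div_iff₀ hdQ]
    exact hdet

/-- Continuity of the determinant of the perturbed metric. -/
theorem det_cont {n : ℕ} {T : Set (Cn n)} {G : Type u} [Group G] {R : G → Cn n → Cn n → Prop}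
    {Q : Cn n → Matrix (Fin n) (Fin n) ℂ} (hQ : KEt T R Q) :
    ContinuousOn (fun x => (Q x).det.re) T ∧ ∀ x ∈ T, 0 < (Q x).det.re := by
  refine ⟨?_, fun x hx => (Complex.pos_iff.1 (hQ.posDef x hx).det_pos).1⟩
  have h1 : ContinuousOn (fun x => Q x) T :=
    continuousOn_pi.2 fun i => continuousOn_pi.2 fun j => (hQ.smooth i j).continuousOn
  have h2 : Continuous fun A : Matrix (Fin n) (Fin n) ℂ => A.det.re :=
    Complex.continuous_re.comp continuous_id.matrix_det
  exact h2.comp_continuousOn h1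

/-- Packet GPT. -/
theorem gpt (hmax : S_MAXF.{u}) (htrc : S_TRC) (hchn : S_CHN) (hket : S_KETP.{u})
    (hmom : S_MOMV.{u}) (hayx : S_AYX.{u}) (htau : S_TAU) (hwirt : S_WIRT) : S_GPT.{u} := by
  classical
  intro n hn T G _ R H a χ φ v κ hχ hκ hφ hv s η hη
  have hE : Et T R := hχ.ket.et
  have hT : IsOpen T := hE.isOpen
  have hN : (0 : ℝ) < n := by exact_mod_cast hn
  have ketp := hket T R hE
  have hpot : ∀ w : Cn n → ℝ, Pot T R χ w → KEt T R (pert χ w) := fun w hw =>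
    (ketp.1 χ w hχ.chf hχ.inv hw.inv).2.2 hw.pos
  have hQ : KEt T R (pert χ φ) := hpot φ hφ
  obtain ⟨cQ, pQ⟩ := det_cont hQ
  have sφ := hφ.inv.1
  have sv := hv.pot.inv.1
  set W : Cn n → ℝ := fun x => v x - φ x - s with hWdef
  have invW : InvF T R W := by
    refine ⟨(sv.sub sφ).sub contDiffOn_const, fun γ x y h => ?_⟩
    simp only [hWdef]
    rw [hv.pot.inv.2 γ x y h, hφ.inv.2 γ x y h]
  obtain ⟨τ, sτ, hτ⟩ := htau η hη
  have sτW : ContDiffOn ℝ ∞ (fun x => τ (W x)) T := sτ.comp_contDiffOn invW.1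
  -- volumes
  set V := vol T κ (pert χ φ) with hV
  have hVp : 0 < V := kpos hE hκ cQ pQ
  set J := ∫ x in T, κ x * ((pert χ φ x).det.re * τ (W x)) with hJ
  have cJ : ContinuousOn (fun x => (pert χ φ x).det.re * τ (W x)) T := cQ.mul sτW.continuousOn
  have hJp : 0 < J := kpos hE hκ cJ fun x hx => mul_pos (pQ x hx) (hτ _).1
  set A := J / V with hA
  have hAp : 0 < A := div_pos hJp hVp
  have hAV : A * V = J := div_mul_cancel₀ _ hVp.ne'
  have cM : ContinuousOn (fun x => (pert χ φ x).det.re * max (W x) 0) T :=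
    cQ.mul (invW.1.continuousOn.sup continuousOn_const)
  have hAle : A * V ≤ (∫ x in T, κ x * (pert χ φ x).det.re * max (v x - φ x - s) 0) + η * V := by
    rw [hAV]
    have e1 : (∫ x in T, κ x * (pert χ φ x).det.re * max (v x - φ x - s) 0) =
        ∫ x in T, κ x * ((pert χ φ x).det.re * max (W x) 0) := by
      simp only [mul_assoc, hWdef]
    have e2 : η * V = ∫ x in T, η * (κ x * (pert χ φ x).det.re) := by
      rw [integral_const_mul]
      rfl
    have i1 := kint hT hκ.test cM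
    have i2 := (kint hT hκ.test cQ).const_mul η
    rw [e1, e2, ← integral_add i1 i2]
    refine setIntegral_mono_on (kint hT hκ.test cJ) (i1.add i2) hT.measurableSet fun x hx => ?_
    have h1 := (hτ (W x)).2.2
    have h2 : 0 ≤ κ x * (pert χ φ x).det.re := mul_nonneg (hκ.nonneg x) (pQ x hx).le
    calc κ x * ((pert χ φ x).det.re * τ (W x)) = κ x * (pert χ φ x).det.re * τ (W x) := by ring
      _ ≤ κ x * (pert χ φ x).det.re * (max (W x) 0 + η) := mul_le_mul_of_nonneg_left h1 h2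
      _ = κ x * ((pert χ φ x).det.re * max (W x) 0) + η * (κ x * (pert χ φ x).det.re) := by ring
  set b : ℝ := (n : ℝ) / ((n : ℝ) + 1) with hb
  set e : ℝ := (2 * A * (((n : ℝ) + 1) / n) ^ n) ^ ((1 : ℝ) / ((n : ℝ) + 1)) with he
  have hb0 : 0 < b := by positivity
  have he0 : 0 < e := by positivity
  -- normalization of potentials
  have hnorm : ∀ w : Cn n → ℝ, Pot T R χ w → ∀ x₁ ∈ T, (∀ y ∈ T, w y ≤ w x₁) →
      NPot T R χ (fun y => w y + (- w x₁)) := by
    intro w hw x₁ hx₁ hm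
    refine ⟨⟨⟨hw.inv.1.add contDiffOn_const, fun γ x y h => ?_⟩, fun x hx => ?_⟩,
      fun x hx => ?_, x₁, hx₁, ?_⟩
    · simp only []
      rw [hw.inv.2 γ x y h]
    · have h1 := hw.pos x hx
      unfold pert at h1 ⊢
      rw [LM_addc]
      exact h1
    · have := hm x hx
      linarith
    · ring
  by_cases hcase : ∀ x ∈ T, W x ≤ 0
  · obtain ⟨x₁, hx₁, hm, -⟩ := hmax T R hE φ hφ.inv
    have hψ := hnorm φ hφ x₁ hx₁ hm
    refine ⟨A, fun y => φ y + (- φ x₁), hAp, hAle, hψ, fun x hx => ?_⟩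
    have h1 := hv.max _ hψ.pot hψ.le x hx
    have h2 := hcase x hx
    refine le_trans h2 (mul_nonneg he0.le (Real.rpow_nonneg ?_ _))
    linarith
  push Not at hcase
  obtain ⟨x₀, hx₀, hWx₀⟩ := hcase
  obtain ⟨x₂, hx₂, hm₂, -⟩ := hmax T R hE W invW
  have hWm : 0 < W x₂ := lt_of_lt_of_le hWx₀ (hm₂ x₀ hx₀)
  have invnv : InvF T R (fun y => - v y) :=
    ⟨sv.neg, fun γ x y h => by simp only []; rw [hv.pot.inv.2 γ x y h]⟩
  obtain ⟨x₃, hx₃, hm₃, -⟩ := hmax T R hE _ invnv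
  set B : ℝ := max (- v x₃) 0 with hB
  have hBv : ∀ y ∈ T, - v y ≤ B := fun y hy => (hm₃ y hy).trans (le_max_left _ _)
  have hB0 : 0 ≤ B := le_max_right _ _
  set h₁ : ℝ := (W x₂ / e) ^ ((1 : ℝ) / b) with hh₁
  have hh₁0 : 0 < h₁ := Real.rpow_pos_of_pos (div_pos hWm he0) _
  set δ : ℝ := Real.log 2 / (h₁ + B + 1) with hδ
  have hden : 0 < h₁ + B + 1 := by linarith
  have hδ0 : 0 < δ := div_pos (Real.log_pos (by norm_num)) hden
  have hδle : δ * (h₁ + B) ≤ Real.log 2 := by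
    have h2 : δ * (h₁ + B + 1) = Real.log 2 := div_mul_cancel₀ _ hden.ne'
    nlinarith
  -- the auxiliary equation
  set f : Cn n → ℝ := fun x => Real.log (τ (W x)) - Real.log A +
    (ld (pert χ φ) x - ld H x) with hf
  obtain ⟨hlds, -, -⟩ := ketp.2.1 H (pert χ φ) hχ.ket hQ
  have invf : InvF T R f := by
    refine ⟨((sτW.log fun x hx => (hτ _).1.ne').sub contDiffOn_const).add hlds.1,
      fun γ x y h => ?_⟩
    have e1 := hlds.2 γ x y h
    simp only [] at e1
    simp only [hf]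
    rw [e1, invW.2 γ x y h]
  obtain ⟨w, hw, hweq⟩ := hayx T R H a χ φ hχ hφ f invf δ hδ0
  have hPw : KEt T R (pert χ w) := hpot w hw
  obtain ⟨cP, pP⟩ := det_cont hPw
  have hdetw : ∀ x ∈ T, (pert χ w x).det.re =
      Real.exp (δ * w x) / A * ((pert χ φ x).det.re * τ (W x)) := by
    intro x hx
    have h1 := hweq x hx
    simp only [ld, hf] at h1
    have h2 : Real.log (pert χ w x).det.re =
        δ * w x + Real.log (τ (W x)) - Real.log A + Real.log (pert χ φ x).det.re := by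
      rw [h1]
      ring
    have h3 := congrArg Real.exp h2
    rw [Real.exp_log (pP x hx), Real.exp_add, Real.exp_sub, Real.exp_add, Real.exp_log (hτ _).1,
      Real.exp_log hAp, Real.exp_log (pQ x hx)] at h3
    rw [h3]
    ring
  obtain ⟨x₄, hx₄, hm₄, -⟩ := hmax T R hE w hw.inv
  have hvolw : vol T κ (pert χ w) = V := by
    rw [hmom T R H hχ.ket κ hκ χ w hχ.chf hχ.inv hw.inv, hV,
      hmom T R H hχ.ket κ hκ χ φ hχ.chf hχ.inv hφ.inv]
  have hexp : 1 ≤ Real.exp (δ * w x₄) := by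
    have h1 : V ≤ Real.exp (δ * w x₄) / A * J := by
      rw [← hvolw, hJ, ← integral_const_mul]
      unfold vol
      refine setIntegral_mono_on (kint hT hκ.test cP) ((kint hT hκ.test cJ).const_mul _)
        hT.measurableSet fun x hx => ?_
      rw [hdetw x hx]
      have h2 : 0 ≤ κ x * ((pert χ φ x).det.re * τ (W x)) :=
        mul_nonneg (hκ.nonneg x) (mul_nonneg (pQ x hx).le (hτ _).1.le)
      have h3 : Real.exp (δ * w x) / A ≤ Real.exp (δ * w x₄) / A := by
        refine div_le_div_of_nonneg_right (Real.exp_le_exp.2 ?_) hAp.le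
        exact mul_le_mul_of_nonneg_left (hm₄ x hx) hδ0.le
      calc κ x * (Real.exp (δ * w x) / A * ((pert χ φ x).det.re * τ (W x))) =
          Real.exp (δ * w x) / A * (κ x * ((pert χ φ x).det.re * τ (W x))) := by ring
        _ ≤ _ := mul_le_mul_of_nonneg_right h3 h2
    have h4 : Real.exp (δ * w x₄) / A * J = Real.exp (δ * w x₄) * V := by
      rw [← hAV]
      field_simp
    rw [h4] at h1
    by_contra hcon
    push Not at hcon
    have := mul_lt_mul_of_pos_right hcon hVp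
    linarith
  have hψ := hnorm w hw x₄ hx₄ hm₄
  set ψ : Cn n → ℝ := fun y => w y + (- w x₄) with hψdef
  have hpertψ : ∀ x, pert χ ψ x = pert χ w x := fun x => by
    unfold pert
    rw [hψdef, LM_addc]
  have hh : ∀ x ∈ T, 1 + 2 * A ≤ 2 + 2 * A + v x - ψ x := fun x hx => by
    have h1 := hv.max _ hψ.pot hψ.le x hx
    linarith
  refine ⟨A, ψ, hAp, hAle, hψ, ?_⟩
  by_contra hcon
  push Not at hcon
  obtain ⟨y, hy, hylt⟩ := hcon
  set Φ : Cn n → ℝ := fun y => v y - φ y - s - e * (2 + 2 * A + v y - ψ y) ^ b with hΦ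
  have sψ := hψ.pot.inv.1
  have invΦ : InvF T R Φ := by
    refine ⟨((sv.sub sφ).sub contDiffOn_const).sub (contDiffOn_const.mul
      (((contDiffOn_const.add sv).sub sψ).rpow_const_of_ne fun x hx => ?_)), fun γ x y h => ?_⟩
    · have := hh x hx
      have h2 : 0 < 2 + 2 * A + v x - ψ x := by linarith
      exact h2.ne'
    · simp only [hΦ]
      rw [hv.pot.inv.2 γ x y h, hφ.inv.2 γ x y h, hψ.pot.inv.2 γ x y h]
  obtain ⟨x, hx, hmx, hPSD⟩ := hmax T R hE Φ invΦ
  have hΦy : 0 < Φ y := by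
    simp only [hΦ]
    linarith
  have hΦx : 0 < Φ x := lt_of_lt_of_le hΦy (hmx y hy)
  have hlt : e * (2 + 2 * A + v x - ψ x) ^ b < W x := by
    simp only [hΦ] at hΦx
    simp only [hWdef]
    linarith
  have hhx : 0 < 2 + 2 * A + v x - ψ x := by
    have := hh x hx
    linarith
  have hWx : 0 < W x := lt_of_le_of_lt (mul_nonneg he0.le (Real.rpow_nonneg hhx.le _)) hlt
  -- the lower bound for `ψ x`
  have hhle : 2 + 2 * A + v x - ψ x ≤ h₁ := by
    have h1 : (2 + 2 * A + v x - ψ x) ^ b ≤ W x₂ / e := by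
      rw [le_div_iff₀ he0]
      have := hm₂ x hx
      linarith
    have h2 := Real.rpow_le_rpow (Real.rpow_nonneg hhx.le _) h1 (by positivity : 0 ≤ (1 : ℝ) / b)
    rw [← Real.rpow_mul hhx.le, mul_one_div_cancel hb0.ne', Real.rpow_one] at h2
    exact h2
  have hψx : - ψ x ≤ h₁ + B := by
    have := hBv x hx
    linarith
  have hexpψ : 1 / 2 ≤ Real.exp (δ * ψ x) := by
    have h1 : - (δ * ψ x) ≤ Real.log 2 := by
      calc - (δ * ψ x) = δ * (- ψ x) := by ring
        _ ≤ δ * (h₁ + B) := mul_le_mul_of_nonneg_left hψx hδ0.le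
        _ ≤ Real.log 2 := hδle
    have h2 : Real.exp (- Real.log 2) ≤ Real.exp (δ * ψ x) := Real.exp_le_exp.2 (by linarith)
    rw [Real.exp_neg, Real.exp_log (by norm_num)] at h2
    linarith
  have hfin := core htrc hchn hwirt hn hT sφ sv sψ s A b e hAp hb he hh hx hPSD (hφ.pos x hx)
    (hv.pot.pos x hx) (hψ.pot.pos x hx) ?_
  · simp only [hWdef] at hlt
    linarith
  · rw [hpertψ, hdetw x hx]
    have h1 : Real.exp (δ * w x) = Real.exp (δ * ψ x) * Real.exp (δ * w x₄) := by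
      rw [← Real.exp_add]
      congr 1
      simp only [hψdef]
      ring
    have h2 : 1 / 2 ≤ Real.exp (δ * w x) := by
      rw [h1]
      nlinarith
    have h3 : W x ≤ τ (W x) := (hτ _).2.1
    have h4 := pQ x hx
    calc (v x - φ x - s) / (2 * A) * (pert χ φ x).det.re =
        (1 / 2) / A * ((pert χ φ x).det.re * W x) := by
          simp only [hWdef]
          field_simp
      _ ≤ Real.exp (δ * w x) / A * ((pert χ φ x).det.re * τ (W x)) := by
          refine mul_le_mul (div_le_div_of_nonneg_right h2 hAp.le)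
            (mul_le_mul_of_nonneg_left h3 h4.le) (mul_nonneg h4.le hWx.le) ?_
          exact div_nonneg (Real.exp_pos _).le hAp.le

end Pool.Agent.Helper97.HS
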