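import Pool.Agent.Helper95.HS.GoalsB
import Pool.Agent.Helper97.HS.GPT

/-! # HS MOMP: volumes of the perturbed twisted Kähler-Einstein metrics -/

open Complex Metric Set Filter Topology MeasureTheory
open scoped ContDiff ComplexConjugate ComplexOrder Manifold Matrix

namespace Pool.Agent.Helper97.HS

open Pool.Agent.Helper95.Lin Pool.Agent.Helper16.Abund Pool.Agent.Helper10.SP
  Pool.Agent.Helper57.HS Pool.Agent.Helper95.HS

universe u v

section lin

variable {n : ℕ}

theorem hermi_ad (A B : Matrix (Fin n) (Fin n) ℂ) (u v : Fin n → ℂ) :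
    hermi (A + B) u v = hermi A u v + hermi B u v := by
  unfold hermi
  simp only [← Finset.sum_add_distrib, Matrix.add_apply]
  refine Finset.sum_congr rfl fun i _ => Finset.sum_congr rfl fun j _ => ?_
  ring

theorem hermi_sm (c : ℂ) (A : Matrix (Fin n) (Fin n) ℂ) (u v : Fin n → ℂ) :
    hermi (c • A) u v = c * hermi A u v := by
  unfold hermi
  simp only [Finset.mul_sum, Matrix.smul_apply, smul_eq_mul]
  refine Finset.sum_congr rfl fun i _ => Finset.sum_congr rfl fun j _ => ?_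
  ring

theorem invH_ad {G : Type u} {R : G → Cn n → Cn n → Prop}
    {Y Z : Cn n → Matrix (Fin n) (Fin n) ℂ} (hY : InvH R Y) (hZ : InvH R Z) :
    InvH R fun x => Y x + Z x := by
  intro U τ h x hx u v
  simp only [hermi_ad]
  rw [hY U τ h x hx, hZ U τ h x hx]

theorem invH_sm {G : Type u} {R : G → Cn n → Cn n → Prop}
    {Y : Cn n → Matrix (Fin n) (Fin n) ℂ} (hY : InvH R Y) (c : ℂ) :
    InvH R fun x => c • Y x := by
  intro U τ h x hx u v
  simp only [hermi_sm]
  rw [hY U τ h x hx]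

theorem cd_ad {T : Set (Cn n)} (hT : IsOpen T) {f g : Cn n → ℂ} (hf : ContDiffOn ℝ ∞ f T)
    (hg : ContDiffOn ℝ ∞ g T) {x : Cn n} (hx : x ∈ T) (l : Fin n) :
    cd l (fun y => f y + g y) x = cd l f x + cd l g x := by
  have h1 : DifferentiableAt ℝ f x :=
    (hf.contDiffAt (hT.mem_nhds hx)).differentiableAt (by simp)
  have h2 : DifferentiableAt ℝ g x :=
    (hg.contDiffAt (hT.mem_nhds hx)).differentiableAt (by simp)
  unfold cd
  rw [fderiv_fun_add h1 h2]
  simp only [add_apply]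
  ring

theorem cd_sm {T : Set (Cn n)} (hT : IsOpen T) {f : Cn n → ℂ} (hf : ContDiffOn ℝ ∞ f T)
    (c : ℂ) {x : Cn n} (hx : x ∈ T) (l : Fin n) :
    cd l (fun y => c * f y) x = c * cd l f x := by
  have h1 : DifferentiableAt ℝ f x :=
    (hf.contDiffAt (hT.mem_nhds hx)).differentiableAt (by simp)
  unfold cd
  rw [fderiv_const_mul h1 c]
  simp only [smul_apply, smul_eq_mul]
  ring

theorem chf_ad {T : Set (Cn n)} (hT : IsOpen T) {Y Z : Cn n → Matrix (Fin n) (Fin n) ℂ}
    (hY : CHF Y T) (hZ : CHF Z T) : CHF (fun x => Y x + Z x) T := by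
  refine ⟨fun i j => (hY.smooth i j).add (hZ.smooth i j),
    fun x hx => (hY.herm x hx).add (hZ.herm x hx), fun x hx i j l => ?_⟩
  simp only [Matrix.add_apply]
  rw [cd_ad hT (hY.smooth i j) (hZ.smooth i j) hx, cd_ad hT (hY.smooth l j) (hZ.smooth l j) hx,
    hY.closed x hx i j l, hZ.closed x hx i j l]

theorem chf_sm {T : Set (Cn n)} (hT : IsOpen T) {Y : Cn n → Matrix (Fin n) (Fin n) ℂ}
    (hY : CHF Y T) (c : ℝ) : CHF (fun x => (c : ℂ) • Y x) T := by
  refine ⟨fun i j => contDiffOn_const.mul (hY.smooth i j), fun x hx => ?_, fun x hx i j l => ?_⟩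
  · have h := hY.herm x hx
    unfold Matrix.IsHermitian at h ⊢
    rw [Matrix.conjTranspose_smul, h, Complex.star_def, Complex.conj_ofReal]
  · simp only [Matrix.smul_apply, smul_eq_mul]
    rw [cd_sm hT (hY.smooth i j) _ hx, cd_sm hT (hY.smooth l j) _ hx, hY.closed x hx i j l]

theorem vol_congr {T : Set (Cn n)} (hT : IsOpen T) {κ : Cn n → ℝ}
    {Y Z : Cn n → Matrix (Fin n) (Fin n) ℂ} (h : ∀ x ∈ T, (Y x).det.re = (Z x).det.re) :
    vol T κ Y = vol T κ Z := by
  unfold vol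
  refine setIntegral_congr_fun hT.measurableSet fun x hx => ?_
  rw [h x hx]

theorem vol_mul {T : Set (Cn n)} (hT : IsOpen T) {κ : Cn n → ℝ}
    {Y Z : Cn n → Matrix (Fin n) (Fin n) ℂ} (c : ℝ)
    (h : ∀ x ∈ T, (Y x).det.re = c * (Z x).det.re) : vol T κ Y = c * vol T κ Z := by
  unfold vol
  rw [← integral_const_mul]
  refine setIntegral_congr_fun hT.measurableSet fun x hx => ?_
  rw [h x hx]
  ring

end lin

/-- Packet MOMP. -/
theorem momp (hparf : S_PARF.{u}) (hmomv : S_MOMV.{u}) (hketp : S_KETP.{u}) (hcrv : S_CRV)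
    (hrhob : S_RHOB.{u}) (hwirt : S_WIRT) (hdeti : S_DETI.{u}) : S_MOMP.{u} := by
  classical
  intro n T G _ R H hH κ hκ k P hP ε Q hε hQ t ht
  have hE := hH.et
  have hT : IsOpen T := hE.isOpen
  obtain ⟨-, ⟨pC1, pC2, pI1, pI2⟩, -, pR, -, pD, -⟩ := hparf T R H hH k P hP
  have cH : CHF H T := ⟨hH.smooth, fun x hx => (hH.posDef x hx).1, hH.closed⟩
  obtain ⟨-, -, -, cR, -⟩ := hcrv T hT H cH hH.posDef
  obtain ⟨iR, -⟩ := hrhob T R H hH
  have iH : InvH R H := hH.inv
  have sld : ∀ Y : Cn n → Matrix (Fin n) (Fin n) ℂ, KEt T R Y → ContDiffOn ℝ ∞ (ld Y) T := by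
    intro Y hY
    obtain ⟨d1, d2, -⟩ := hdeti T R Y hY
    exact d2.log fun x hx => (d1 x hx).2.1.ne'
  set w : Cn n → ℝ := fun x => ld Q x - ld H x with hw
  have iw : InvF T R w := ((hketp T R hE).2.1 H Q hH hQ.ket).1
  have hLM : ∀ x ∈ T, LM w x = Q x - (ε : ℂ) • H x - rho H x := by
    intro x hx
    have h1 := LM_sb hwirt hT (sld Q hQ.ket) (sld H hH) hx
    rw [hw, h1, ← hQ.eq x hx]
    rfl
  -- the base field
  set Y₀ : Cn n → Matrix (Fin n) (Fin n) ℂ := fun x => rho H x + (ε : ℂ) • H x with hY₀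
  have cY₀ : CHF Y₀ T := chf_ad hT cR (chf_sm hT cH ε)
  have iY₀ : InvH R Y₀ := invH_ad iR (invH_sm iH _)
  have key : ∀ Z : Cn n → Matrix (Fin n) (Fin n) ℂ, CHF Z T → InvH R Z → ∀ s : ℝ,
      vol T κ (fun x => Q x + (s : ℂ) • Z x) = vol T κ (fun x => Y₀ x + (s : ℂ) • Z x) := by
    intro Z cZ iZ s
    have h1 := hmomv T R H hH κ hκ (fun x => Y₀ x + (s : ℂ) • Z x) w
      (chf_ad hT cY₀ (chf_sm hT cZ s)) (invH_ad iY₀ (invH_sm iZ _)) iw
    rw [← h1]
    refine vol_congr hT fun x hx => ?_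
    have h2 : pert (fun x => Y₀ x + (s : ℂ) • Z x) w x = Q x + (s : ℂ) • Z x := by
      unfold pert
      rw [hLM x hx, hY₀]
      simp only []
      abel
    rw [h2]
  have hε0 : (ε : ℂ) ≠ 0 := by exact_mod_cast hε.ne'
  constructor
  · have h0 : vol T κ Q = vol T κ Y₀ := by
      have h1 := key (fun x => P x * H x) pC1 pI1 0
      simp only [Complex.ofReal_zero, zero_smul, add_zero] at h1
      exact h1
    rw [key _ pC1 pI1 t, h0]
    refine vol_mul hT _ fun x hx => ?_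
    have h2 : Y₀ x + (t : ℂ) • (P x * H x) = (1 + ((t / ε : ℝ) : ℂ) • P x) * Y₀ x := by
      rw [hY₀]
      simp only []
      rw [Matrix.add_mul, Matrix.one_mul, Matrix.smul_mul, Matrix.mul_add, pR x hx, zero_add,
        Matrix.mul_smul, smul_smul]
      congr 2
      push_cast
      field_simp
    rw [h2, Matrix.det_mul, pD x hx]
    have h3 : (1 + ((t / ε : ℝ) : ℂ)) ^ k = (((1 + t / ε) ^ k : ℝ) : ℂ) := by push_cast; rfl
    rw [h3, Complex.re_ofReal_mul]
  · rw [key _ pC2 pI2 t]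
    unfold VN
    refine vol_mul hT _ fun x hx => ?_
    have h2 : Y₀ x + (t : ℂ) • ((1 - P x) * H x) = (1 + ((ε - 1 : ℝ) : ℂ) • P x) *
        (rho H x + P x * H x + ((ε + t : ℝ) : ℂ) • ((1 - P x) * H x)) := by
      have hPP : P x * P x = P x := hP.proj x hx
      have e1 : P x * (rho H x + P x * H x + ((ε + t : ℝ) : ℂ) • ((1 - P x) * H x)) =
          P x * H x := by
        rw [Matrix.mul_add, Matrix.mul_add, pR x hx, zero_add, ← Matrix.mul_assoc, hPP,
          Matrix.mul_smul, ← Matrix.mul_assoc, Matrix.mul_sub, Matrix.mul_one, hPP, sub_self,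
          Matrix.zero_mul, smul_zero, add_zero]
      rw [Matrix.add_mul, Matrix.one_mul, Matrix.smul_mul, e1, hY₀]
      simp only []
      rw [Matrix.sub_mul, Matrix.one_mul]
      push_cast
      module
    rw [h2, Matrix.det_mul, pD x hx]
    have h3 : (1 + ((ε - 1 : ℝ) : ℂ)) ^ k = ((ε ^ k : ℝ) : ℂ) := by
      push_cast
      congr 1
      ring
    rw [h3, Complex.re_ofReal_mul]

end Pool.Agent.Helper97.HS
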