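import Pool.Agent.Helper95.HS.GoalsB

/-! # HS LOGS: the differential inequality for the transversal trace -/

open Complex Metric Set Filter Topology MeasureTheory
open scoped ContDiff ComplexConjugate ComplexOrder Manifold Matrix

namespace Pool.Agent.Helper97.HS

open Pool.Agent.Helper95.Lin Pool.Agent.Helper16.Abund Pool.Agent.Helper10.SP
  Pool.Agent.Helper57.HS Pool.Agent.Helper95.HS

universe u v

theorem chf_of {n : ℕ} {T : Set (Cn n)} {G : Type u} [Group G] {R : G → Cn n → Cn n → Prop}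
    {H : Cn n → Matrix (Fin n) (Fin n) ℂ} (h : KEt T R H) : CHF H T :=
  ⟨h.smooth, fun x hx => (h.posDef x hx).1, h.closed⟩

theorem crvP_sub {n : ℕ} (H : Cn n → Matrix (Fin n) (Fin n) ℂ) (X X' Y : Matrix (Fin n) (Fin n) ℂ)
    (x : Cn n) : crvP H (X - X') Y x = crvP H X Y x - crvP H X' Y x := by
  unfold crvP
  simp only [← Finset.sum_sub_distrib]
  refine Finset.sum_congr rfl fun i _ => Finset.sum_congr rfl fun j _ =>
    Finset.sum_congr rfl fun k _ => Finset.sum_congr rfl fun l _ => ?_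
  rw [Matrix.sub_apply]
  ring

/-- Packet LOGS. -/
theorem logs (hparf : S_PARF.{u}) (hclp : S_CLP) (haaps : S_AAPS) (hsgn : S_SGN) (hchn : S_CHN)
    (htri : S_TRI.{u}) (htrc : S_TRC) : S_LOGS.{u} := by
  classical
  intro n T G _ R H hH hN k P hP hk ε Q hε hQ
  have hT : IsOpen T := hH.et.isOpen
  obtain ⟨⟨-, pE⟩, ⟨-, pC, -, pI⟩, pS, -, pN, -, pp, -⟩ := hparf T R H hH k P hP
  set S : Cn n → ℝ := trP (fun x => 1 - P x) H Q with hS
  have cH := chf_of hH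
  have cQ := chf_of hQ.ket
  obtain ⟨sS, hcl⟩ := hclp T hT H Q (fun x => 1 - P x) cH hH.posDef cQ hQ.ket.posDef pE
  have inv : InvF T R S := (htri T R Q hQ.ket).1 (fun x => (1 - P x) * H x) pC.smooth pI
  have pos : ∀ x ∈ T, 0 < S x := fun x hx => pp hk x hx (Q x) (hQ.ket.posDef x hx)
  refine ⟨inv, pos, fun x hx => ?_⟩
  obtain ⟨c1, c2, c3⟩ := hcl x hx
  have qpd := hQ.ket.posDef x hx
  have hpd := hH.posDef x hx
  have qu : IsUnit (Q x).det := by
    rw [isUnit_iff_ne_zero]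
    exact qpd.det_pos.ne'
  set Y : Matrix (Fin n) (Fin n) ℂ := (1 - P x) * H x with hY
  have yps : Y.PosSemidef := (pS x hx).2
  have qi : ((Q x)⁻¹).PosDef := qpd.inv
  -- the four terms
  have t1 : Matrix.trace (rho Q x * (Q x)⁻¹ * Y * (Q x)⁻¹) =
      Matrix.trace (Y * (Q x)⁻¹) - (ε : ℂ) * Matrix.trace (H x * ((Q x)⁻¹ * Y * (Q x)⁻¹)) := by
    rw [hQ.eq x hx, Matrix.sub_mul, Matrix.mul_nonsing_inv _ qu, Matrix.sub_mul, Matrix.one_mul,
      Matrix.sub_mul, Matrix.trace_sub]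
    congr 1
    rw [Matrix.smul_mul, Matrix.smul_mul, Matrix.smul_mul, Matrix.trace_smul, smul_eq_mul]
    simp only [Matrix.mul_assoc]
  have t2 : 0 ≤ (Matrix.trace (H x * ((Q x)⁻¹ * Y * (Q x)⁻¹))).re := by
    have h1 : ((Q x)⁻¹ * Y * (Q x)⁻¹).PosSemidef := by
      have h2 := yps.mul_mul_conjTranspose_same (Q x)⁻¹
      rwa [qi.1.eq] at h2
    have h3 := ((htrc (H x)⁻¹ ((Q x)⁻¹ * Y * (Q x)⁻¹) hpd.inv).2.1 h1).1
    rwa [Matrix.nonsing_inv_nonsing_inv _ (by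
      rw [isUnit_iff_ne_zero]
      exact hpd.det_pos.ne')] at h3
  have t3 : crvP H ((Q x)⁻¹ * (1 - P x)) (Q x)⁻¹ x = crvP H (Q x)⁻¹ (Q x)⁻¹ x := by
    rw [Matrix.mul_sub, Matrix.mul_one, crvP_sub, pN x hx, sub_zero]
  have t4 : (crvP H (Q x)⁻¹ (Q x)⁻¹ x).re ≤ 0 :=
    hsgn T hT H cH hH.posDef hN x hx _ qi.posSemidef
  set a : ℝ := (AAP (fun x => 1 - P x) H Q x).re with ha
  have t5 : (Matrix.trace (Y * (Q x)⁻¹)).re = S x := rfl
  have t6 : - S x + a ≤ (trL Q S x).re := by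
    have h1 : trL Q S x = - Matrix.trace (rho Q x * (Q x)⁻¹ * Y * (Q x)⁻¹) -
      crvP H ((Q x)⁻¹ * (1 - P x)) (Q x)⁻¹ x + AAP (fun x => 1 - P x) H Q x := c3
    rw [h1, t1, t3]
    simp only [Complex.add_re, Complex.sub_re, Complex.neg_re, Complex.re_ofReal_mul, t5]
    have h2 : 0 ≤ ε * (Matrix.trace (H x * ((Q x)⁻¹ * Y * (Q x)⁻¹))).re := mul_nonneg hε.le t2
    linarith
  -- the logarithm
  obtain ⟨-, hch⟩ := hchn T hT S Real.log (Ioi 0) sS isOpen_Ioi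
    (contDiffOn_id.log fun t (ht : 0 < t) => ht.ne') (fun y hy => pos y hy)
  obtain ⟨-, hch⟩ := hch x hx
  have sp := pos x hx
  have d1 : deriv Real.log (S x) = (S x)⁻¹ := Real.deriv_log _
  have d2 : deriv (deriv Real.log) (S x) = - ((S x) ^ 2)⁻¹ := by
    rw [Real.deriv_log']
    exact deriv_inv
  rw [d1, d2] at hch
  have t7 : trL Q (fun y => Real.log (S y)) x = (((S x)⁻¹ : ℝ) : ℂ) * trL Q S x -
      ((((S x) ^ 2)⁻¹ : ℝ) : ℂ) * ∑ i, ∑ l, (Q x)⁻¹ l i *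
        (Matrix.trace (Adf H Q i x * Y * (Q x)⁻¹) *
          conj (Matrix.trace (Adf H Q l x * Y * (Q x)⁻¹))) := by
    unfold trL
    simp only [Matrix.trace, Matrix.diag_apply, Matrix.mul_apply]
    rw [Finset.mul_sum, Finset.mul_sum]
    have e0 : ∀ i l : Fin n, LM (fun y => Real.log (S y)) x i l =
        (((S x)⁻¹ : ℝ) : ℂ) * LM S x i l - ((((S x) ^ 2)⁻¹ : ℝ) : ℂ) *
        (Matrix.trace (Adf H Q i x * Y * (Q x)⁻¹) *
          conj (Matrix.trace (Adf H Q l x * Y * (Q x)⁻¹))) := by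
      intro i l
      have e1 := hch i l
      have e2 := c2 i
      have e3 := c2 l
      rw [e1, e2, e3]
      simp only [hY]
      push_cast
      rw [map_neg]
      ring
    have e4 : ∀ l : Fin n, ∑ i, (Q x)⁻¹ l i * LM (fun y => Real.log (S y)) x i l =
        (((S x)⁻¹ : ℝ) : ℂ) * ∑ i, (Q x)⁻¹ l i * LM S x i l -
        ∑ i, ((((S x) ^ 2)⁻¹ : ℝ) : ℂ) * ((Q x)⁻¹ l i *
        (Matrix.trace (Adf H Q i x * Y * (Q x)⁻¹) *
          conj (Matrix.trace (Adf H Q l x * Y * (Q x)⁻¹)))) := by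
      intro l
      rw [Finset.mul_sum, ← Finset.sum_sub_distrib]
      refine Finset.sum_congr rfl fun i _ => ?_
      rw [e0 i l]
      ring
    rw [Finset.sum_congr rfl fun l _ => e4 l, Finset.sum_sub_distrib]
    congr 1
    rw [Finset.sum_comm]
    refine Finset.sum_congr rfl fun i _ => ?_
    rw [Finset.mul_sum]
    rfl
  obtain ⟨-, -, a3⟩ := haaps (Q x) Y (fun i => Adf H Q i x) qpd yps
  set b : ℝ := (∑ i, ∑ l, (Q x)⁻¹ l i * (Matrix.trace (Adf H Q i x * Y * (Q x)⁻¹) *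
          conj (Matrix.trace (Adf H Q l x * Y * (Q x)⁻¹)))).re with hb
  have a4 : b ≤ S x * a := a3
  have t8 : (trL Q (fun y => Real.log (S y)) x).re = (S x)⁻¹ * (trL Q S x).re -
      ((S x) ^ 2)⁻¹ * b := by
    rw [t7, Complex.sub_re, Complex.re_ofReal_mul, Complex.re_ofReal_mul]
  rw [t8]
  have h1 : (S x)⁻¹ * (- S x + a) ≤ (S x)⁻¹ * (trL Q S x).re :=
    mul_le_mul_of_nonneg_left t6 (inv_nonneg.2 sp.le)
  have h2 : ((S x) ^ 2)⁻¹ * b ≤ ((S x) ^ 2)⁻¹ * (S x * a) :=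
    mul_le_mul_of_nonneg_left a4 (by positivity)
  have h3 : (S x)⁻¹ * (- S x + a) - ((S x) ^ 2)⁻¹ * (S x * a) = -1 := by
    field_simp
    ring
  linarith

end Pool.Agent.Helper97.HS
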