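import Pool.Agent.Helper95.HS.GoalsB
import Pool.Agent.Helper97.HS.GPT

/-! # HS SMALLT: the transversal trace is small for some parameter -/

open Complex Metric Set Filter Topology MeasureTheory
open scoped ContDiff ComplexConjugate ComplexOrder Manifold Matrix

namespace Pool.Agent.Helper97.HS

open Pool.Agent.Helper95.Lin Pool.Agent.Helper16.Abund Pool.Agent.Helper10.SP
  Pool.Agent.Helper57.HS Pool.Agent.Helper95.HS

universe u v

/-- The potential of a twisted Kähler-Einstein metric. -/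
theorem tke_pot (hwirt : S_WIRT) (hdeti : S_DETI.{u}) {n : ℕ} {T : Set (Cn n)} {G : Type u}
    [Group G] {R : G → Cn n → Cn n → Prop} {H : Cn n → Matrix (Fin n) (Fin n) ℂ}
    (hH : KEt T R H) {ε : ℝ} {Q : Cn n → Matrix (Fin n) (Fin n) ℂ} (hQ : TKE T R H ε Q) :
    ∀ x ∈ T, LM (fun y => ld Q y - ld H y) x = Q x - (ε : ℂ) • H x - rho H x := by
  have hT : IsOpen T := hH.et.isOpen
  have sld : ∀ Y : Cn n → Matrix (Fin n) (Fin n) ℂ, KEt T R Y → ContDiffOn ℝ ∞ (ld Y) T := by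
    intro Y hY
    obtain ⟨d1, d2, -⟩ := hdeti T R Y hY
    exact d2.log fun x hx => (d1 x hx).2.1.ne'
  intro x hx
  rw [LM_sb hwirt hT (sld Q hQ.ket) (sld H hH) hx, ← hQ.eq x hx]
  rfl

/-- Packet SMALLT. -/
theorem smallt (hayt : S_AYT.{u}) (hpue : S_PUE.{u}) (hparf : S_PARF.{u}) (hsbg : S_SBG.{u})
    (hdens : S_DENS.{u}) (hrhob : S_RHOB.{u}) (hlogs : S_LOGS.{u}) (hesle : S_ESLE.{u})
    (hnull : S_NULL0.{u}) (hketp : S_KETP.{u}) (htrc : S_TRC) (hwirt : S_WIRT)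
    (hdeti : S_DETI.{u}) : S_SMALLT.{u} := by
  classical
  intro n T G _ R H hH hN k P hP
  have hE := hH.et
  have hT : IsOpen T := hE.isOpen
  obtain ⟨-, -, pS, -, -, -, -, pk⟩ := hparf T R H hH k P hP
  have hkn : k ≤ n := by
    obtain ⟨x, hx⟩ := hE.nonempty
    have hu : IsUnit (H x).det := by
      rw [isUnit_iff_ne_zero]
      exact (hH.posDef x hx).det_pos.ne'
    have h1 := ((htrc (H x) _ (hH.posDef x hx)).2.1 (pS x hx).2).1
    rw [← Matrix.mul_assoc, Matrix.trace_mul_comm, ← Matrix.mul_assoc,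
      Matrix.mul_nonsing_inv _ hu, Matrix.one_mul, Matrix.trace_sub, Matrix.trace_one,
      hP.tr x hx, Fintype.card_fin] at h1
    simp only [Complex.sub_re, Complex.natCast_re, sub_nonneg] at h1
    exact_mod_cast h1
  rcases hkn.eq_or_lt with hk | hk
  · obtain ⟨Q, hQ⟩ := hayt T R H hH hN 1 one_pos
    refine ⟨1, Q, one_pos, hQ, fun x hx => ?_⟩
    rw [pk hk x hx]
    simp
  have hn : 0 < n := lt_of_le_of_lt (Nat.zero_le k) hk
  obtain ⟨κ, hκ⟩ := hpue T R hE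
  obtain ⟨ε₀, C, hε₀, hε₁, hC⟩ := hesle T R H hH κ hκ k P hP
  obtain ⟨-, a, ha, hrho⟩ := hrhob T R H hH
  obtain ⟨K, hK, hD⟩ := hdens T R H hH κ hκ (a + 1)
  obtain ⟨C', hC'⟩ := hsbg hn T R H hH κ hκ (a + 1) K
  set B : ℝ := |C'| * |C| with hB
  have hB0 : 0 ≤ B := by positivity
  set ε : ℝ := min ε₀ (1 / (2 * (B + 1))) with hε
  have hεpos : 0 < ε := lt_min hε₀ (by positivity)
  have hεle : ε ≤ ε₀ := min_le_left _ _
  have hε1 : ε ≤ 1 := hεle.trans hε₁
  have hεB : ε * B < 1 := by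
    have h1 : ε ≤ 1 / (2 * (B + 1)) := min_le_right _ _
    have h2 : ε * (2 * (B + 1)) ≤ 1 := by
      rwa [le_div_iff₀ (by positivity)] at h1
    nlinarith
  obtain ⟨Q, hQ⟩ := hayt T R H hH hN ε hεpos
  refine ⟨ε, Q, hεpos, hQ, ?_⟩
  have hpot := tke_pot hwirt hdeti hH hQ
  have iw : InvF T R (fun x => ld Q x - ld H x) := (((hketp T R hE).2.1 H Q hH hQ.ket)).1
  have hps : ∀ x ∈ T, ((((a + 1 : ℝ) : ℂ) • H x) -
      (Q x - LM (fun y => ld Q y - ld H y) x)).PosSemidef := by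
    intro x hx
    rw [hpot x hx]
    have h1 : (((a + 1 : ℝ) : ℂ) • H x) - (Q x - (Q x - (ε : ℂ) • H x - rho H x)) =
        ((a : ℂ) • H x - rho H x) + ((1 - ε : ℝ) : ℂ) • H x := by
      push_cast
      module
    rw [h1]
    refine (hrho x hx).1.add ((hH.posDef x hx).posSemidef.smul ?_)
    exact_mod_cast sub_nonneg.2 hε1
  have hps2 : ∀ x ∈ T, ((((a + 1 : ℝ) : ℂ) • H x) +
      LM (fun y => ld Q y - ld H y) x).PosSemidef := by
    intro x hx
    have h1 : (((a + 1 : ℝ) : ℂ) • H x) + LM (fun y => ld Q y - ld H y) x =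
        ((((a + 1 : ℝ) : ℂ) • H x) - (Q x - LM (fun y => ld Q y - ld H y) x)) + Q x := by
      abel
    rw [h1]
    exact (hps x hx).add (hQ.ket.posDef x hx).posSemidef
  have hDens := hD Q hQ.ket hps2
  obtain ⟨l1, l2, l3⟩ := hlogs T R H hH hN k P hP hk ε Q hεpos hQ
  have hmain := hC' Q _ _ hQ.ket iw hps hDens l1 l2 l3
  have hV : 0 < vol T κ Q := (hnull T R Q hQ.ket κ hκ).1
  have hI := hC ε Q hεpos hεle hQ
  intro x hx
  have h1 := hmain x hx
  set I : ℝ := ∫ y in T, κ y * (Q y).det.re * trP (fun x => 1 - P x) H Q y with hIdef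
  have hI0 : 0 ≤ I := by
    refine setIntegral_nonneg hT.measurableSet fun y hy => ?_
    have h2 : 0 < (Q y).det.re := (Complex.pos_iff.1 (hQ.ket.posDef y hy).det_pos).1
    exact mul_nonneg (mul_nonneg (hκ.nonneg y) h2.le) (l2 y hy).le
  have h3 : trP (fun x => 1 - P x) H Q x * vol T κ Q ≤ B * vol T κ Q := by
    calc trP (fun x => 1 - P x) H Q x * vol T κ Q ≤ C' * I := h1
      _ ≤ |C'| * I := mul_le_mul_of_nonneg_right (le_abs_self _) hI0
      _ ≤ |C'| * (C * vol T κ Q) := mul_le_mul_of_nonneg_left hI (abs_nonneg _)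
      _ ≤ |C'| * (|C| * vol T κ Q) :=
          mul_le_mul_of_nonneg_left (mul_le_mul_of_nonneg_right (le_abs_self _) hV.le)
            (abs_nonneg _)
      _ = B * vol T κ Q := by rw [hB]; ring
  have h4 : trP (fun x => 1 - P x) H Q x ≤ B := le_of_mul_le_mul_right h3 hV
  have h5 : (Matrix.trace ((1 - P x) * H x * (Q x)⁻¹)).re = trP (fun x => 1 - P x) H Q x := rfl
  rw [h5]
  exact lt_of_le_of_lt (mul_le_mul_of_nonneg_left h4 hεpos.le) hεB

end Pool.Agent.Helper97.HS
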